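import Pool.Agent.Helper57.TU.BM
import Pool.Agent.Helper88.SE.Goals

/-!
# SE-BK: the main terms of the Brun-Hooley sieve with local numbers
-/

set_option autoImplicit false

open Finset Filter Topology

open scoped Classical

namespace Pool.Agent.Helper64.SE

open Pool.Agent.Helper88.PP (pr)
open Pool.Agent.Helper88.TU
open Pool.Agent.Helper57.TU (Pt_disjoint Pt_subset pr_eq_biUnion sum_biUnion_powerset es tr es_nonneg
  bonferroni es_le Lbound exp_le_one_sub sum_exp_le)

theorem range_bound : ∃ E0 : ℕ, ∀ E y z k t : ℕ, ∀ κ : ℕ → ℕ, E0 ≤ E → E ^ 2 ≤ y → k ^ 2 ≤ E →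
    (∀ p, κ p ≤ k) →
    (∀ p ∈ Pt y z t, 0 ≤ (κ p : ℝ) / p ∧ (κ p : ℝ) / p ≤ 1 / 2) ∧
    0 < ∏ p ∈ Pt y z t, (1 - (κ p : ℝ) / p) ∧
    es (fun p => (κ p : ℝ) / p) (Pt y z t) (rt E t + 1) ≤
      Real.exp (-(3 * E + t)) * ∏ p ∈ Pt y z t, (1 - (κ p : ℝ) / p) := by
  obtain ⟨C, hC0, hC⟩ := Lbound
  have hlim : Tendsto (fun E : ℕ => Real.log E) atTop atTop :=
    Real.tendsto_log_atTop.comp tendsto_natCast_atTop_atTop
  obtain ⟨E1, hE1⟩ := eventually_atTop.mp (hlim.eventually_ge_atTop (512 * (6 * C + 3)))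
  refine ⟨max E1 256, fun E y z k t κ hE hy hk hκ => ?_⟩
  have hE1' := hE1 E ((le_max_left _ _).trans hE)
  have hE256 : 256 ≤ E := (le_max_right _ _).trans hE
  have hkE : k ≤ E := by nlinarith
  have hκr : ∀ p, (κ p : ℝ) ≤ k := fun p => by exact_mod_cast hκ p
  have hx : ∀ p ∈ Pt y z t, 0 ≤ (κ p : ℝ) / p ∧ (κ p : ℝ) / p ≤ 1 / 2 := by
    intro p hp
    have h1 := Pt_subset y z t hp
    unfold pr at h1
    rw [mem_filter, mem_Ioc] at h1
    have h2 : 2 * k ≤ p := by nlinarith [h1.1.1]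
    have hp0 : (0 : ℝ) < p := by exact_mod_cast h1.2.pos
    refine ⟨by positivity, ?_⟩
    rw [div_le_iff₀ hp0]
    have h3 : ((2 * k : ℕ) : ℝ) ≤ p := by exact_mod_cast h2
    push_cast at h3
    linarith [hκr p]
  refine ⟨hx, prod_pos fun p hp => by linarith [(hx p hp).2], ?_⟩
  have hEr : (256 : ℝ) ≤ E := by exact_mod_cast hE256
  have hkr : (k : ℝ) ≤ √(E : ℝ) := by
    apply Real.le_sqrt_of_sq_le
    exact_mod_cast hk
  have hsE : √(E : ℝ) ≤ E := by
    rw [Real.sqrt_le_left (by positivity)]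
    nlinarith
  have hs0 : 0 < √(E : ℝ) := Real.sqrt_pos.mpr (by linarith)
  have hsum : ∑ p ∈ Pt y z t, (κ p : ℝ) / p ≤ √(E : ℝ) * (2 * C) := by
    have : ∑ p ∈ Pt y z t, (κ p : ℝ) / p ≤ k * ∑ p ∈ Pt y z t, 1 / (p : ℝ) := by
      rw [mul_sum]
      refine sum_le_sum fun p _ => ?_
      rw [mul_one_div]
      exact div_le_div_of_nonneg_right (hκr p) (Nat.cast_nonneg p)
    refine this.trans ?_
    exact mul_le_mul hkr (hC y z t) (sum_nonneg fun p _ => by positivity) hs0.le
  -- lower bound for the product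
  have hpi : Real.exp (-(2 * (√(E : ℝ) * (2 * C)))) ≤ ∏ p ∈ Pt y z t, (1 - (κ p : ℝ) / p) := by
    calc Real.exp (-(2 * (√(E : ℝ) * (2 * C)))) ≤ Real.exp (-(2 * ∑ p ∈ Pt y z t, (κ p : ℝ) / p)) := by
          apply Real.exp_le_exp.mpr
          linarith
      _ = ∏ p ∈ Pt y z t, Real.exp (-(2 * ((κ p : ℝ) / p))) := by
          rw [← Real.exp_sum, mul_sum, sum_neg_distrib]
      _ ≤ _ := prod_le_prod (fun p _ => (Real.exp_pos _).le)
          fun p hp => exp_le_one_sub (hx p hp).1 (hx p hp).2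
  -- upper bound for the elementary symmetric function
  have hes := es_le (fun p => (κ p : ℝ) / p) (Pt y z t) (fun p hp => (hx p hp).1) (rt E t + 1)
    (√(E : ℝ)) hs0
  have hpow : √(E : ℝ) ^ (rt E t + 1) = Real.exp (((rt E t + 1 : ℕ) : ℝ) * (Real.log E / 2)) := by
    rw [← Real.log_sqrt (by linarith : (0 : ℝ) ≤ E), ← Real.log_pow, Real.exp_log (by positivity)]
  have hm : (E : ℝ) / 256 + 2 * t ≤ ((rt E t + 1 : ℕ) : ℝ) := by
    have h1 : E ≤ 256 * (E / 256) + 256 := by omega
    have h2 : (E : ℝ) ≤ 256 * ((E / 256 : ℕ) : ℝ) + 256 := by exact_mod_cast h1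
    have h3 : (1 : ℝ) ≤ ((E / 256 : ℕ) : ℝ) := by
      have : 1 ≤ E / 256 := by omega
      exact_mod_cast this
    unfold rt
    push_cast
    linarith
  have hlE : 0 < Real.log E := by nlinarith
  have h1 : es (fun p => (κ p : ℝ) / p) (Pt y z t) (rt E t + 1) ≤
      Real.exp (√(E : ℝ) * (√(E : ℝ) * (2 * C)) - (E / 256 + 2 * t) * (Real.log E / 2)) := by
    refine hes.trans ?_
    rw [hpow, ← Real.exp_sub]
    apply Real.exp_le_exp.mpr
    have h2 := mul_le_mul_of_nonneg_left hsum hs0.le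
    have h3 := mul_le_mul_of_nonneg_right hm (by linarith : 0 ≤ Real.log E / 2)
    linarith
  refine h1.trans ?_
  refine le_trans ?_ (mul_le_mul_of_nonneg_left hpi (Real.exp_pos _).le)
  rw [← Real.exp_add]
  apply Real.exp_le_exp.mpr
  have h4 : √(E : ℝ) * (√(E : ℝ) * (2 * C)) = 2 * C * E := by
    rw [← mul_assoc, Real.mul_self_sqrt (by linarith)]
    ring
  rw [h4]
  have h5 : 2 * (√(E : ℝ) * (2 * C)) ≤ 4 * C * E := by nlinarith
  have h6 : E * (512 * (6 * C + 3)) ≤ E * Real.log E :=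
    mul_le_mul_of_nonneg_left hE1' (by linarith)
  have h7 : (t : ℝ) ≤ t * Real.log E := by
    have : (1 : ℝ) ≤ Real.log E := by nlinarith
    have ht : (0 : ℝ) ≤ t := by positivity
    nlinarith
  nlinarith

/-- the signed weights are multiplicative on disjoint unions -/
noncomputable def sw (κ : ℕ → ℕ) (A : Finset ℕ) : ℝ := (-1 : ℝ) ^ A.card * ∏ p ∈ A, ((κ p : ℝ) / p)

theorem sw_eq (κ : ℕ → ℕ) (A : Finset ℕ) : sw κ A = ∏ p ∈ A, (-((κ p : ℝ) / p)) := by
  unfold sw
  rw [prod_neg]

theorem sw_union (κ : ℕ → ℕ) (A B : Finset ℕ) (h : Disjoint A B) : sw κ (A ∪ B) = sw κ A * sw κ B := by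
  rw [sw_eq, sw_eq, sw_eq, prod_union h]

/-- **BK** -/
theorem bk : Pool.Agent.Helper88.SE.StmtBK := by
  obtain ⟨E0, hE0⟩ := range_bound
  refine ⟨max E0 512, fun E y z k κ hE hz hy hyz hk hκ => ?_⟩
  have hEE0 : E0 ≤ E := (le_max_left _ _).trans hE
  have hE512 : 512 ≤ E := (le_max_right _ _).trans hE
  have hEr : (512 : ℝ) ≤ E := by exact_mod_cast hE512
  have hz2 : 2 ≤ z := by
    have h1 : (2 : ℝ) ≤ z := by
      have := Real.add_one_le_exp (E : ℝ)
      linarith
    exact_mod_cast h1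
  have hz1 : 1 ≤ z := by omega
  set x : ℕ → ℝ := fun p => (κ p : ℝ) / p with hx
  set U : ℕ → ℝ := fun t => tr x (Pt y z t) (rt E t + 1) with hU
  set V : ℕ → ℝ := fun t => es x (Pt y z t) (rt E t + 1) with hV
  set π : ℕ → ℝ := fun t => ∏ p ∈ Pt y z t, (1 - x p) with hπ
  set ε : ℕ → ℝ := fun t => Real.exp (-(3 * (E : ℝ) + t)) with hε
  have hε0 : ∀ t, 0 < ε t := fun t => Real.exp_pos _
  have hrange := fun t => hE0 E y z k t κ hEE0 hy hk hκ
  have hπ0 : ∀ t, 0 < π t := fun t => (hrange t).2.1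
  have hVε : ∀ t, V t ≤ ε t * π t := fun t => (hrange t).2.2
  have hV0 : ∀ t, 0 ≤ V t := fun t => es_nonneg x _ (fun p hp => ((hrange t).1 p hp).1) _
  have hodd : ∀ t, (-1 : ℝ) ^ (rt E t + 1) = -1 := by
    intro t
    apply Odd.neg_one_pow
    unfold rt
    exact ⟨E / 256 + t, rfl⟩
  have hbon : ∀ t, π t ≤ U t ∧ U t ≤ π t + V t := by
    intro t
    have h1 := bonferroni x (Pt y z t) (fun p hp => ⟨((hrange t).1 p hp).1, by
      have := ((hrange t).1 p hp).2
      linarith⟩) (rt E t + 1)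
    rw [hodd t] at h1
    constructor
    · linarith [h1.1]
    · linarith [h1.2]
  have hU0 : ∀ t, 0 ≤ U t := fun t => (hπ0 t).le.trans (hbon t).1
  have hUε : ∀ t, U t ≤ (1 + ε t) * π t := by
    intro t
    have := (hbon t).2
    have := hVε t
    linarith
  -- the density
  set G : ℝ := ∏ p ∈ pr y z, (1 - (κ p : ℝ) / p) with hG
  have hgg : G = ∏ t ∈ range z, π t := by
    rw [hG, pr_eq_biUnion hz1, prod_biUnion (fun s _ t _ hst => Pt_disjoint hst)]
  have hgg0 : 0 < G := by
    rw [hgg]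
    exact prod_pos fun t _ => hπ0 t
  -- the sum of the errors
  have hσ : ∑ t ∈ range z, ε t ≤ 2 * Real.exp (-(3 * (E : ℝ))) := sum_exp_le E z
  have hσ0 : 0 ≤ ∑ t ∈ range z, ε t := sum_nonneg fun t _ => (hε0 t).le
  have hexp3 : Real.exp (-(3 * (E : ℝ))) = Real.exp (-(E : ℝ)) * Real.exp (-(2 * (E : ℝ))) := by
    rw [← Real.exp_add]
    congr 1
    ring
  have hexp2 : Real.exp (-(2 * (E : ℝ))) ≤ 1 / 8 := by
    rw [Real.exp_neg, inv_eq_one_div]
    apply one_div_le_one_div_of_le (by norm_num)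
    have := Real.add_one_le_exp (2 * (E : ℝ))
    linarith
  have hexp1 : Real.exp (-(E : ℝ)) ≤ 1 := by
    rw [Real.exp_le_one_iff]
    linarith
  have hexp0 := Real.exp_pos (-(E : ℝ))
  have hexp00 := Real.exp_pos (-(2 * (E : ℝ)))
  have hσ2 : ∑ t ∈ range z, ε t ≤ Real.exp (-(E : ℝ)) / 4 := by
    rw [hexp3] at hσ
    nlinarith
  have hprod : ∏ t ∈ range z, (1 + ε t) ≤ 1 + 2 * ∑ t ∈ range z, ε t := by
    calc ∏ t ∈ range z, (1 + ε t) ≤ ∏ t ∈ range z, Real.exp (ε t) := by
          refine prod_le_prod (fun t _ => by linarith [hε0 t]) fun t _ => ?_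
          have := Real.add_one_le_exp (ε t)
          linarith
      _ = Real.exp (∑ t ∈ range z, ε t) := by rw [Real.exp_sum]
      _ ≤ 1 + 2 * ∑ t ∈ range z, ε t := by
          set u := ∑ t ∈ range z, ε t
          have hu1 : u ≤ 1 / 2 := by linarith
          have h1 := exp_le_one_sub (x := u / 2) (by linarith) (by linarith)
          have h2 : Real.exp (-u) ≤ 1 - u / 2 := by
            have e : -(2 * (u / 2)) = -u := by ring
            rwa [e] at h1
          have h4 : Real.exp u * Real.exp (-u) = 1 := by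
            rw [← Real.exp_add]
            simp
          have h5 := Real.add_one_le_exp (-u)
          have h6 : 1 - u ≤ Real.exp (-u) := by linarith
          have h7 : Real.exp u * (1 - u) ≤ 1 := by
            calc Real.exp u * (1 - u) ≤ Real.exp u * Real.exp (-u) := by
                  gcongr
              _ = 1 := h4
          have h8 : 1 ≤ (1 + 2 * u) * (1 - u) := by nlinarith
          have h9 : Real.exp u * (1 - u) ≤ (1 + 2 * u) * (1 - u) := h7.trans h8
          exact le_of_mul_le_mul_right h9 (by linarith)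
  -- first sum
  have hfac1 : ∑ A ∈ AA E y z, (-1 : ℝ) ^ A.card * ∏ p ∈ A, ((κ p : ℝ) / p) =
      ∏ t ∈ range z, U t := by
    have h1 := sum_biUnion_powerset (Pt y z) (fun s t hst => Pt_disjoint hst)
      (fun t B => B.card ≤ rt E t) (sw κ) (by simp [sw]) (sw_union κ) (range z)
    rw [← pr_eq_biUnion hz1] at h1
    have h2 : AA E y z = ((pr y z).powerset).filter
        (fun A => ∀ t ∈ range z, (A ∩ Pt y z t).card ≤ rt E t) := by
      unfold AA
      ext A
      simp only [mem_filter, mem_range]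
    rw [h2]
    refine Eq.trans ?_ (h1.trans ?_)
    · refine sum_congr ?_ fun A _ => rfl
      ext A
      simp only [mem_filter]
    · refine prod_congr rfl fun t _ => ?_
      change _ = tr x (Pt y z t) (rt E t + 1)
      unfold tr
      refine sum_congr ?_ fun A _ => sw_eq κ A
      ext A
      simp only [mem_filter]
      constructor
      · rintro ⟨a, b⟩
        exact ⟨a, by omega⟩
      · rintro ⟨a, b⟩
        exact ⟨a, by omega⟩
  have hfac2 : ∀ t ∈ range z, ∑ A ∈ AX E y z t, (-1 : ℝ) ^ A.card * ∏ p ∈ A, ((κ p : ℝ) / p) =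
      -(V t * ∏ s ∈ (range z).erase t, U s) := by
    intro t ht
    have h1 := sum_biUnion_powerset (Pt y z) (fun s t hst => Pt_disjoint hst)
      (fun s B => if s = t then B.card = rt E t + 1 else B.card ≤ rt E s) (sw κ) (by simp [sw])
      (sw_union κ) (range z)
    rw [← pr_eq_biUnion hz1, ← mul_prod_erase (range z) _ ht] at h1
    have h2 : AX E y z t = ((pr y z).powerset).filter (fun A => ∀ s ∈ range z,
        if s = t then (A ∩ Pt y z s).card = rt E t + 1 else (A ∩ Pt y z s).card ≤ rt E s) := by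
      unfold AX
      ext A
      simp only [mem_filter, mem_range]
      rw [mem_range] at ht
      constructor
      · rintro ⟨a, b, c⟩
        refine ⟨a, fun s hs => ?_⟩
        split_ifs with h
        · rw [h]
          exact b
        · exact c s hs h
      · rintro ⟨a, b⟩
        refine ⟨a, ?_, fun s hs hst => ?_⟩
        · have := b t ht
          rwa [if_pos rfl] at this
        · have := b s hs
          rwa [if_neg hst] at this
    rw [h2]
    refine Eq.trans ?_ (h1.trans ?_)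
    · refine sum_congr ?_ fun A _ => rfl
      ext A
      simp only [mem_filter]
    · rw [neg_mul_eq_neg_mul]
      congr 1
      · change _ = -es x (Pt y z t) (rt E t + 1)
        unfold es
        rw [← sum_neg_distrib]
        refine sum_congr ?_ fun A hA => ?_
        · ext A
          simp only [mem_filter, if_true]
        · rw [mem_filter] at hA
          unfold sw
          rw [hA.2, hodd t]
          ring
      · refine prod_congr rfl fun s hs => ?_
        have hst : s ≠ t := (mem_erase.mp hs).1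
        change _ = tr x (Pt y z s) (rt E s + 1)
        unfold tr
        refine sum_congr ?_ fun A _ => sw_eq κ A
        ext A
        simp only [mem_filter, if_neg hst]
        constructor
        · rintro ⟨a, b⟩
          exact ⟨a, by omega⟩
        · rintro ⟨a, b⟩
          exact ⟨a, by omega⟩
  have hUprod : ∏ t ∈ range z, U t ≤ (∏ t ∈ range z, (1 + ε t)) * G := by
    rw [hgg, ← prod_mul_distrib]
    exact prod_le_prod (fun t _ => hU0 t) fun t _ => hUε t
  have hUlow : G ≤ ∏ t ∈ range z, U t := by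
    rw [hgg]
    exact prod_le_prod (fun t _ => (hπ0 t).le) fun t _ => (hbon t).1
  refine ⟨hgg0, ?_, ?_⟩
  · rw [hfac1, abs_of_nonneg (by linarith)]
    have h1 := mul_le_mul_of_nonneg_right hprod hgg0.le
    have h2 : 2 * ∑ t ∈ range z, ε t ≤ Real.exp (-(E : ℝ)) := by linarith
    nlinarith
  · rw [sum_congr rfl hfac2, sum_neg_distrib, neg_neg]
    have h1 : ∀ t ∈ range z, V t * ∏ s ∈ (range z).erase t, U s ≤
        ε t * ((∏ s ∈ range z, (1 + ε s)) * G) := by
      intro t ht
      calc V t * ∏ s ∈ (range z).erase t, U s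
          ≤ (ε t * π t) * ∏ s ∈ (range z).erase t, ((1 + ε s) * π s) := by
            refine mul_le_mul (hVε t) ?_ (prod_nonneg fun s _ => hU0 s)
              (mul_nonneg (hε0 t).le (hπ0 t).le)
            exact prod_le_prod (fun s _ => hU0 s) fun s _ => hUε s
        _ = ε t * (∏ s ∈ (range z).erase t, (1 + ε s)) * (π t * ∏ s ∈ (range z).erase t, π s) := by
            rw [prod_mul_distrib]
            ring
        _ = ε t * (∏ s ∈ (range z).erase t, (1 + ε s)) * G := by
            rw [mul_prod_erase (range z) π ht, ← hgg]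
        _ ≤ ε t * (∏ s ∈ range z, (1 + ε s)) * G := by
            refine mul_le_mul_of_nonneg_right ?_ hgg0.le
            refine mul_le_mul_of_nonneg_left ?_ (hε0 t).le
            rw [← mul_prod_erase (range z) (fun s => 1 + ε s) ht]
            have h2 : 0 ≤ ∏ s ∈ (range z).erase t, (1 + ε s) :=
              prod_nonneg fun s _ => by linarith [hε0 s]
            nlinarith [hε0 t]
        _ = _ := by ring
    refine (sum_le_sum h1).trans ?_
    rw [← sum_mul]
    have h3 : ∏ t ∈ range z, (1 + ε t) ≤ 2 := by linarith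
    have h4 : 0 ≤ ∏ t ∈ range z, (1 + ε t) := prod_nonneg fun t _ => by linarith [hε0 t]
    calc (∑ t ∈ range z, ε t) * ((∏ s ∈ range z, (1 + ε s)) * G)
        ≤ (Real.exp (-(E : ℝ)) / 4) * (2 * G) := by
          refine mul_le_mul hσ2 ?_ (mul_nonneg h4 hgg0.le) (by positivity)
          exact mul_le_mul_of_nonneg_right h3 hgg0.le
      _ ≤ Real.exp (-(E : ℝ)) * G := by nlinarith [mul_pos hexp0 hgg0]

end Pool.Agent.Helper64.SE
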